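import Mathlib
import Pool.Agent.R812.SF.Stmts

/-!
# MP_a86bc9_an : the flow on the 3-torus (`St_FLOW`)

Suspension of the composition of two sine shears, realised as a C¹ flow.
-/

namespace Pool.Agent.R213.SF

open scoped Manifold ContDiff Real Topology
open Real Pool.Agent.R812.SF Filter

/-- the 2-torus -/
abbrev T2 := Circle × Circle

/-- the model of the 2-torus -/
noncomputable abbrev IT2 := (𝓡 1).prod (𝓡 1)

attribute [local instance] finrank_real_complex_fact'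

/-- imaginary part of a point of the circle -/
noncomputable def im (Y : Circle) : ℝ := (Y : ℂ).im

lemma contMDiff_coe : ContMDiff (𝓡 1) 𝓘(ℝ, ℂ) 1 (fun Y : Circle => (Y : ℂ)) :=
  contMDiff_coe_sphere (E := ℂ)

lemma contMDiff_im : ContMDiff (𝓡 1) 𝓘(ℝ, ℝ) 1 im :=
  Complex.imCLM.contMDiff.comp contMDiff_coe

lemma im_exp (x : ℝ) : im (Circle.exp x) = sin x := by
  simp [im, Circle.coe_exp, Complex.exp_ofReal_mul_I_im]

/-- shear in the first variable -/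
noncomputable def Sx (c : ℝ) : Equiv.Perm T2 where
  toFun p := (p.1 * Circle.exp (c * im p.2), p.2)
  invFun p := (p.1 * Circle.exp (-(c * im p.2)), p.2)
  left_inv := by
    rintro ⟨X, Y⟩
    simp [mul_assoc]
  right_inv := by
    rintro ⟨X, Y⟩
    simp [mul_assoc]

/-- shear in the second variable -/
noncomputable def Sy (c : ℝ) : Equiv.Perm T2 where
  toFun p := (p.1, p.2 * Circle.exp (c * im p.1))
  invFun p := (p.1, p.2 * Circle.exp (-(c * im p.1)))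
  left_inv := by
    rintro ⟨X, Y⟩
    simp [mul_assoc]
  right_inv := by
    rintro ⟨X, Y⟩
    simp [mul_assoc]

lemma Sx_apply (c : ℝ) (p : T2) : Sx c p = (p.1 * Circle.exp (c * im p.2), p.2) := rfl
lemma Sy_apply (c : ℝ) (p : T2) : Sy c p = (p.1, p.2 * Circle.exp (c * im p.1)) := rfl
lemma Sx_inv_apply (c : ℝ) (p : T2) :
    (Sx c)⁻¹ p = (p.1 * Circle.exp (-(c * im p.2)), p.2) := rfl
lemma Sy_inv_apply (c : ℝ) (p : T2) :
    (Sy c)⁻¹ p = (p.1, p.2 * Circle.exp (-(c * im p.1))) := rfl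

lemma app_inv (e : Equiv.Perm T2) (p : T2) : e (e⁻¹ p) = p := e.apply_symm_apply p
lemma inv_app (e : Equiv.Perm T2) (p : T2) : e⁻¹ (e p) = p := e.symm_apply_apply p

lemma Sx_zero : Sx 0 = 1 := by
  ext p : 1
  simp [Sx_apply]

lemma Sy_zero : Sy 0 = 1 := by
  ext p : 1
  simp [Sy_apply]

section smooth

variable {E H M : Type*} [NormedAddCommGroup E] [NormedSpace ℝ E] [TopologicalSpace H]
  {I : ModelWithCorners ℝ E H} [TopologicalSpace M] [ChartedSpace H M]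

lemma circleExp_smooth {c : M → ℝ} {x : M} (hc : ContMDiffAt I 𝓘(ℝ, ℝ) 1 c x) :
    ContMDiffAt I (𝓡 1) 1 (fun m => Circle.exp (c m)) x :=
  (contMDiff_circleExp.contMDiffAt).comp x hc

lemma mul_smooth {f g : M → Circle} {x : M} (hf : ContMDiffAt I (𝓡 1) 1 f x)
    (hg : ContMDiffAt I (𝓡 1) 1 g x) : ContMDiffAt I (𝓡 1) 1 (fun m => f m * g m) x := by
  have : LieGroup (𝓡 1) 1 Circle := LieGroup.of_le (m := 1) (n := ω) le_top
  exact hf.mul hg

lemma mulR_smooth {f g : M → ℝ} {x : M} (hf : ContMDiffAt I 𝓘(ℝ, ℝ) 1 f x)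
    (hg : ContMDiffAt I 𝓘(ℝ, ℝ) 1 g x) :
    ContMDiffAt I 𝓘(ℝ, ℝ) 1 (fun m => f m * g m) x :=
  hf.smul hg

lemma shear_smooth {c : M → ℝ} {f g : M → Circle} {x : M}
    (hc : ContMDiffAt I 𝓘(ℝ, ℝ) 1 c x) (hf : ContMDiffAt I (𝓡 1) 1 f x)
    (hg : ContMDiffAt I (𝓡 1) 1 g x) :
    ContMDiffAt I (𝓡 1) 1 (fun m => f m * Circle.exp (c m * im (g m))) x :=
  mul_smooth hf (circleExp_smooth (mulR_smooth hc ((contMDiff_im.contMDiffAt).comp x hg)))

lemma shear_smooth' {c : M → ℝ} {f g : M → Circle} {x : M}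
    (hc : ContMDiffAt I 𝓘(ℝ, ℝ) 1 c x) (hf : ContMDiffAt I (𝓡 1) 1 f x)
    (hg : ContMDiffAt I (𝓡 1) 1 g x) :
    ContMDiffAt I (𝓡 1) 1 (fun m => f m * Circle.exp (-(c m * im (g m)))) x :=
  mul_smooth hf (circleExp_smooth
    ((mulR_smooth hc ((contMDiff_im.contMDiffAt).comp x hg)).neg))

lemma Sx_smooth {c : M → ℝ} {f : M → T2} {x : M} (hc : ContMDiffAt I 𝓘(ℝ, ℝ) 1 c x)
    (hf : ContMDiffAt I IT2 1 f x) : ContMDiffAt I IT2 1 (fun m => Sx (c m) (f m)) x :=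
  (shear_smooth hc hf.fst hf.snd).prodMk hf.snd

lemma Sy_smooth {c : M → ℝ} {f : M → T2} {x : M} (hc : ContMDiffAt I 𝓘(ℝ, ℝ) 1 c x)
    (hf : ContMDiffAt I IT2 1 f x) : ContMDiffAt I IT2 1 (fun m => Sy (c m) (f m)) x :=
  hf.fst.prodMk (shear_smooth hc hf.snd hf.fst)

lemma Sx_inv_smooth {c : M → ℝ} {f : M → T2} {x : M} (hc : ContMDiffAt I 𝓘(ℝ, ℝ) 1 c x)
    (hf : ContMDiffAt I IT2 1 f x) : ContMDiffAt I IT2 1 (fun m => (Sx (c m))⁻¹ (f m)) x :=
  (shear_smooth' hc hf.fst hf.snd).prodMk hf.snd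

lemma Sy_inv_smooth {c : M → ℝ} {f : M → T2} {x : M} (hc : ContMDiffAt I 𝓘(ℝ, ℝ) 1 c x)
    (hf : ContMDiffAt I IT2 1 f x) : ContMDiffAt I IT2 1 (fun m => (Sy (c m))⁻¹ (f m)) x :=
  hf.fst.prodMk (shear_smooth' hc hf.snd hf.fst)

/-- time profile: `0` for `r ≤ a`, `A` for `r ≥ a + 1/4` -/
noncomputable def prof (A a r : ℝ) : ℝ := A * smoothTransition (4 * (r - a))

lemma prof_smooth (A a : ℝ) {r : M → ℝ} {x : M} (hr : ContMDiffAt I 𝓘(ℝ, ℝ) 1 r x) :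
    ContMDiffAt I 𝓘(ℝ, ℝ) 1 (fun m => prof A a (r m)) x := by
  have h : ContDiff ℝ 1 (prof A a) := by
    unfold prof
    exact contDiff_const.mul
      (Real.smoothTransition.contDiff.comp (contDiff_const.mul (contDiff_id.sub contDiff_const)))
  exact h.contMDiff.contMDiffAt.comp x hr

lemma prof_zero (A a r : ℝ) (h : r ≤ a) : prof A a r = 0 := by
  unfold prof
  rw [Real.smoothTransition.zero_of_nonpos (by linarith), mul_zero]

lemma prof_one (A a r : ℝ) (h : a + 1 / 4 ≤ r) : prof A a r = A := by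
  unfold prof
  rw [Real.smoothTransition.one_of_one_le (by linarith), mul_one]

/-- the isotopy on one period -/
noncomputable def K (A r : ℝ) : Equiv.Perm T2 := Sy (prof A (5 / 8) r) * Sx (prof A (1 / 8) r)

lemma K_zero (A r : ℝ) (h : r ≤ 1 / 8) : K A r = 1 := by
  unfold K
  rw [prof_zero _ _ _ h, prof_zero _ _ _ (by linarith), Sx_zero, Sy_zero, mul_one]

lemma K_one (A r : ℝ) (h : 7 / 8 ≤ r) : K A r = Sy A * Sx A := by
  unfold K
  rw [prof_one _ _ _ (by linarith), prof_one _ _ _ (by linarith)]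

lemma K_smooth (A : ℝ) {r : M → ℝ} {f : M → T2} {x : M} (hr : ContMDiffAt I 𝓘(ℝ, ℝ) 1 r x)
    (hf : ContMDiffAt I IT2 1 f x) : ContMDiffAt I IT2 1 (fun m => K A (r m) (f m)) x :=
  Sy_smooth (prof_smooth A _ hr) (Sx_smooth (prof_smooth A _ hr) hf)

lemma K_inv_smooth (A : ℝ) {r : M → ℝ} {f : M → T2} {x : M}
    (hr : ContMDiffAt I 𝓘(ℝ, ℝ) 1 r x)
    (hf : ContMDiffAt I IT2 1 f x) : ContMDiffAt I IT2 1 (fun m => (K A (r m))⁻¹ (f m)) x := by
  have : (fun m => (K A (r m))⁻¹ (f m)) =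
      fun m => (Sx (prof A (1 / 8) (r m)))⁻¹ ((Sy (prof A (5 / 8) (r m)))⁻¹ (f m)) := by
    funext m
    simp [K, mul_inv_rev]
  rw [this]
  exact Sx_inv_smooth (prof_smooth A _ hr) (Sy_inv_smooth (prof_smooth A _ hr) hf)

/-- the time one map -/
noncomputable def g (A : ℝ) : Equiv.Perm T2 := Sy A * Sx A

lemma g_smooth (A : ℝ) {f : M → T2} {x : M} (hf : ContMDiffAt I IT2 1 f x) :
    ContMDiffAt I IT2 1 (fun m => g A (f m)) x :=
  Sy_smooth contMDiffAt_const (Sx_smooth contMDiffAt_const hf)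

lemma g_inv_smooth (A : ℝ) {f : M → T2} {x : M} (hf : ContMDiffAt I IT2 1 f x) :
    ContMDiffAt I IT2 1 (fun m => (g A)⁻¹ (f m)) x := by
  have : (fun m => (g A)⁻¹ (f m)) = fun m => (Sx A)⁻¹ ((Sy A)⁻¹ (f m)) := by
    funext m
    simp [g, mul_inv_rev]
  rw [this]
  exact Sx_inv_smooth contMDiffAt_const (Sy_inv_smooth contMDiffAt_const hf)

lemma g_pow_smooth (A : ℝ) (n : ℕ) {f : M → T2} {x : M} (hf : ContMDiffAt I IT2 1 f x) :
    ContMDiffAt I IT2 1 (fun m => (g A ^ n) (f m)) x := by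
  induction n with
  | zero => simpa using hf
  | succ n ih =>
    have : (fun m => (g A ^ (n + 1)) (f m)) = fun m => g A ((g A ^ n) (f m)) := by
      funext m
      rw [pow_succ', Equiv.Perm.mul_apply]
    rw [this]
    exact g_smooth A ih

lemma g_inv_pow_smooth (A : ℝ) (n : ℕ) {f : M → T2} {x : M} (hf : ContMDiffAt I IT2 1 f x) :
    ContMDiffAt I IT2 1 (fun m => ((g A)⁻¹ ^ n) (f m)) x := by
  induction n with
  | zero => simpa using hf
  | succ n ih =>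
    have : (fun m => ((g A)⁻¹ ^ (n + 1)) (f m)) = fun m => (g A)⁻¹ (((g A)⁻¹ ^ n) (f m)) := by
      funext m
      rw [pow_succ', Equiv.Perm.mul_apply]
    rw [this]
    exact g_inv_smooth A ih

lemma g_zpow_smooth (A : ℝ) (k : ℤ) {f : M → T2} {x : M} (hf : ContMDiffAt I IT2 1 f x) :
    ContMDiffAt I IT2 1 (fun m => (g A ^ k) (f m)) x := by
  obtain ⟨n, rfl | rfl⟩ := k.eq_nat_or_neg
  · simpa using g_pow_smooth A n hf
  · have : (g A ^ (-(n : ℤ))) = (g A)⁻¹ ^ n := by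
      rw [zpow_neg, zpow_natCast, inv_pow]
    rw [this]
    exact g_inv_pow_smooth A n hf

/-- the isotopy on the whole line -/
noncomputable def Hs (A s : ℝ) : Equiv.Perm T2 := K A (Int.fract s) * g A ^ ⌊s⌋

lemma Hs_eq (A s : ℝ) (k : ℤ) (h1 : (k : ℝ) - 1 / 8 < s) (h2 : s < k + 9 / 8) :
    Hs A s = K A (s - k) * g A ^ k := by
  unfold Hs
  have hfl1 : k - 1 ≤ ⌊s⌋ := by
    rw [Int.le_floor]
    push_cast
    linarith
  have hfl2 : ⌊s⌋ < k + 2 := by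
    rw [Int.floor_lt]
    push_cast
    linarith
  have hf := Int.floor_add_fract s
  have h0 := Int.fract_nonneg s
  have h1' := Int.fract_lt_one s
  rcases (by omega : ⌊s⌋ = k - 1 ∨ ⌊s⌋ = k ∨ ⌊s⌋ = k + 1) with h | h | h
  · rw [h] at hf ⊢
    push_cast at hf
    rw [K_one A _ (by linarith), K_zero A _ (by linarith), one_mul]
    change g A * g A ^ (k - 1) = _
    rw [← zpow_one_add]
    congr 1
    ring
  · rw [h] at hf ⊢
    congr 2
    linarith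
  · rw [h] at hf ⊢
    push_cast at hf
    rw [K_zero A _ (by linarith), K_one A _ (by linarith), one_mul]
    change _ = g A * g A ^ k
    rw [← zpow_one_add]
    congr 1
    ring

lemma Hs_add_int (A s : ℝ) (k : ℤ) : Hs A (s + k) = Hs A s * g A ^ k := by
  unfold Hs
  rw [Int.fract_add_intCast, Int.floor_add_intCast, zpow_add, mul_assoc]

lemma Hs_zero (A : ℝ) : Hs A 0 = 1 := by
  unfold Hs
  rw [Int.fract_zero, Int.floor_zero, zpow_zero, mul_one, K_zero A 0 (by norm_num)]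

lemma Hs_one (A : ℝ) : Hs A 1 = g A := by
  have h := Hs_add_int A 0 1
  rw [Hs_zero, one_mul, zpow_one] at h
  simpa using h

lemma Hs_ev {A : ℝ} {s : M → ℝ} {x : M} (hs : ContinuousAt s x) :
    ∀ᶠ m in 𝓝 x, Hs A (s m) = K A (s m - ⌊s x⌋) * g A ^ ⌊s x⌋ := by
  have h1 : (⌊s x⌋ : ℝ) - 1 / 8 < s x := by
    have := Int.floor_le (s x)
    linarith
  have h2 : s x < (⌊s x⌋ : ℝ) + 9 / 8 := by
    have := Int.lt_floor_add_one (s x)
    linarith
  filter_upwards [hs.eventually (eventually_gt_nhds h1), hs.eventually (eventually_lt_nhds h2)]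
    with m hm1 hm2
  exact Hs_eq A _ _ hm1 hm2

lemma subConst_smooth {r : M → ℝ} {x : M} (hr : ContMDiffAt I 𝓘(ℝ, ℝ) 1 r x) (c : ℝ) :
    ContMDiffAt I 𝓘(ℝ, ℝ) 1 (fun m => r m - c) x :=
  hr.sub contMDiffAt_const

lemma Hs_smooth (A : ℝ) {s : M → ℝ} {f : M → T2} {x : M} (hs : ContMDiffAt I 𝓘(ℝ, ℝ) 1 s x)
    (hf : ContMDiffAt I IT2 1 f x) : ContMDiffAt I IT2 1 (fun m => Hs A (s m) (f m)) x := by
  have h := K_smooth A (subConst_smooth hs (⌊s x⌋ : ℝ)) (g_zpow_smooth A ⌊s x⌋ hf)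
  refine h.congr_of_eventuallyEq ?_
  filter_upwards [Hs_ev (A := A) hs.continuousAt] with m hm
  rw [hm, Equiv.Perm.mul_apply]

lemma Hs_inv_smooth (A : ℝ) {s : M → ℝ} {f : M → T2} {x : M}
    (hs : ContMDiffAt I 𝓘(ℝ, ℝ) 1 s x)
    (hf : ContMDiffAt I IT2 1 f x) : ContMDiffAt I IT2 1 (fun m => (Hs A (s m))⁻¹ (f m)) x := by
  have h := g_zpow_smooth A (-⌊s x⌋) (K_inv_smooth A (subConst_smooth hs (⌊s x⌋ : ℝ)) hf)
  refine h.congr_of_eventuallyEq ?_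
  filter_upwards [Hs_ev (A := A) hs.continuousAt] with m hm
  rw [hm, mul_inv_rev, Equiv.Perm.mul_apply, zpow_neg]

/-- argument of a point of the circle -/
noncomputable def ar (Z : Circle) : ℝ := Complex.arg (Z : ℂ)

lemma exp_ar (Z : Circle) : Circle.exp (ar Z) = Z := Circle.exp_arg Z

lemma ar_one : ar 1 = 0 := by simp [ar]

lemma ar_smooth {f : M → Circle} {x : M} (hf : ContMDiffAt I (𝓡 1) 1 f x) (h1 : f x = 1) :
    ContMDiffAt I 𝓘(ℝ, ℝ) 1 (fun m => ar (f m)) x := by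
  have hlog : ContDiffAt ℝ 1 (fun z : ℂ => (Complex.log z).im) ((f x : Circle) : ℂ) := by
    have h := (Complex.contDiffAt_log (x := ((f x : Circle) : ℂ)) (n := 1)
      (by rw [h1]; simp)).restrict_scalars ℝ
    exact Complex.imCLM.contDiff.contDiffAt.comp _ h
  have h2 : ContMDiffAt I 𝓘(ℝ, ℂ) 1 (fun m => ((f m : Circle) : ℂ)) x :=
    contMDiff_coe.contMDiffAt.comp x hf
  have h3 := hlog.contMDiffAt.comp x h2
  refine h3.congr_of_eventuallyEq (Eventually.of_forall fun m => ?_)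
  simp [ar, Complex.log_im]

end smooth

/-- the suspension flow -/
noncomputable def phi (A t : ℝ) (p : T3) : T3 :=
  let w := Hs A (ar p.2.2 / (2 * π) + t / (2 * π)) ((Hs A (ar p.2.2 / (2 * π)))⁻¹ (p.1, p.2.1))
  (w.1, w.2, p.2.2 * Circle.exp t)

lemma exp_eq_int {a b : ℝ} (h : Circle.exp (2 * π * a) = Circle.exp (2 * π * b)) :
    ∃ k : ℤ, a = b + k := by
  obtain ⟨k, hk⟩ := Circle.exp_eq_exp.1 h
  refine ⟨k, ?_⟩
  have hpi := Real.pi_pos
  have : 2 * π * a = 2 * π * (b + k) := by rw [hk]; ring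
  exact mul_left_cancel₀ (by positivity) this

lemma phi_eq (A t : ℝ) (p : T3) (r : ℝ) (hr : Circle.exp (2 * π * r) = p.2.2) :
    phi A t p = ((Hs A (r + t / (2 * π)) ((Hs A r)⁻¹ (p.1, p.2.1))).1,
      (Hs A (r + t / (2 * π)) ((Hs A r)⁻¹ (p.1, p.2.1))).2, p.2.2 * Circle.exp t) := by
  have hpi := Real.pi_pos
  obtain ⟨k, hk⟩ := exp_eq_int (a := ar p.2.2 / (2 * π)) (b := r) (by
    rw [hr, mul_div_cancel₀ _ (by positivity), exp_ar])
  have h1 : Hs A (ar p.2.2 / (2 * π)) = Hs A r * g A ^ k := by rw [hk, Hs_add_int]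
  have h2 : Hs A (ar p.2.2 / (2 * π) + t / (2 * π)) = Hs A (r + t / (2 * π)) * g A ^ k := by
    rw [hk, ← Hs_add_int]
    congr 1
    ring
  unfold phi
  simp only [h1, h2, mul_inv_rev, Equiv.Perm.mul_apply, app_inv]

lemma exp_lift (Z : Circle) : Circle.exp (2 * π * (ar Z / (2 * π))) = Z := by
  have hpi := Real.pi_pos
  rw [mul_div_cancel₀ _ (by positivity), exp_ar]

theorem flow : St_FLOW := by
  intro N
  refine ⟨N, phi N, le_rfl, ?_, ?_, ?_, ?_, ?_⟩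
  · rintro ⟨t0, X0, Y0, Z0⟩
    have hpi := Real.pi_pos
    set r0 : ℝ := ar Z0 / (2 * π) with hr0
    let r : ℝ × T3 → ℝ := fun p => r0 + ar (p.2.2.2 * Z0⁻¹) / (2 * π)
    have hlift : ∀ p : ℝ × T3, Circle.exp (2 * π * r p) = p.2.2.2 := by
      intro p
      have : 2 * π * r p = ar Z0 + ar (p.2.2.2 * Z0⁻¹) := by
        simp only [r, hr0]
        field_simp
      rw [this, Circle.exp_add, exp_ar, exp_ar]
      simp
    have hfun : (fun p : ℝ × T3 => phi N p.1 p.2) = fun p : ℝ × T3 =>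
        ((Hs N (r p + p.1 / (2 * π)) ((Hs N (r p))⁻¹ (p.2.1, p.2.2.1))).1,
        (Hs N (r p + p.1 / (2 * π)) ((Hs N (r p))⁻¹ (p.2.1, p.2.2.1))).2,
        p.2.2.2 * Circle.exp p.1) := by
      funext p
      exact phi_eq N p.1 p.2 (r p) (hlift p)
    rw [hfun]
    set x0 : ℝ × T3 := (t0, X0, Y0, Z0) with hx0
    have ht : ContMDiffAt ((𝓘(ℝ, ℝ)).prod IT3) 𝓘(ℝ, ℝ) 1 (fun p : ℝ × T3 => p.1) x0 :=
      contMDiffAt_fst
    have hm : ContMDiffAt ((𝓘(ℝ, ℝ)).prod IT3) IT3 1 (fun p : ℝ × T3 => p.2) x0 :=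
      contMDiffAt_snd
    have hX : ContMDiffAt ((𝓘(ℝ, ℝ)).prod IT3) (𝓡 1) 1 (fun p : ℝ × T3 => p.2.1) x0 := hm.fst
    have hY : ContMDiffAt ((𝓘(ℝ, ℝ)).prod IT3) (𝓡 1) 1 (fun p : ℝ × T3 => p.2.2.1) x0 :=
      hm.snd.fst
    have hZ : ContMDiffAt ((𝓘(ℝ, ℝ)).prod IT3) (𝓡 1) 1 (fun p : ℝ × T3 => p.2.2.2) x0 :=
      hm.snd.snd
    have hr : ContMDiffAt ((𝓘(ℝ, ℝ)).prod IT3) 𝓘(ℝ, ℝ) 1 r x0 := by
      have h1 : ContMDiffAt ((𝓘(ℝ, ℝ)).prod IT3) 𝓘(ℝ, ℝ) 1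
          (fun p : ℝ × T3 => ar (p.2.2.2 * Z0⁻¹)) x0 :=
        ar_smooth (f := fun p : ℝ × T3 => p.2.2.2 * Z0⁻¹)
          (mul_smooth hZ contMDiffAt_const) (by simp [hx0])
      have h0 : ContMDiffAt ((𝓘(ℝ, ℝ)).prod IT3) 𝓘(ℝ, ℝ) 1
          (fun _ : ℝ × T3 => r0) x0 := contMDiffAt_const
      have h2 : ContMDiffAt ((𝓘(ℝ, ℝ)).prod IT3) 𝓘(ℝ, ℝ) 1
          (fun _ : ℝ × T3 => (2 * π)⁻¹) x0 := contMDiffAt_const
      exact h0.add (mulR_smooth h1 h2)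
    have hrt : ContMDiffAt ((𝓘(ℝ, ℝ)).prod IT3) 𝓘(ℝ, ℝ) 1
        (fun p : ℝ × T3 => r p + p.1 / (2 * π)) x0 :=
      hr.add (mulR_smooth ht (g := fun _ => (2 * π)⁻¹) contMDiffAt_const)
    have hw : ContMDiffAt ((𝓘(ℝ, ℝ)).prod IT3) IT2 1 (fun p : ℝ × T3 =>
        Hs N (r p + p.1 / (2 * π)) ((Hs N (r p))⁻¹ (p.2.1, p.2.2.1))) x0 :=
      Hs_smooth N hrt (Hs_inv_smooth N hr (hX.prodMk hY))
    exact hw.fst.prodMk (hw.snd.prodMk (mul_smooth hZ (circleExp_smooth ht)))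
  · rintro ⟨X, Y, Z⟩
    rw [phi_eq N 0 _ _ (exp_lift Z)]
    simp
  · rintro s t ⟨X, Y, Z⟩
    have h1 := phi_eq N t (X, Y, Z) _ (exp_lift Z)
    have hpi := Real.pi_pos
    set r := ar Z / (2 * π) with hr
    have hl : Circle.exp (2 * π * (r + t / (2 * π))) = Z * Circle.exp t := by
      have : 2 * π * (r + t / (2 * π)) = ar Z + t := by
        rw [hr]
        field_simp
      rw [this, Circle.exp_add, exp_ar]
    rw [phi_eq N (s + t) (X, Y, Z) r (exp_lift Z), h1, phi_eq N s _ (r + t / (2 * π)) hl]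
    have h2 : r + (s + t) / (2 * π) = r + t / (2 * π) + s / (2 * π) := by ring
    simp only [Prod.mk.eta, inv_app, h2, Circle.exp_add]
    ext1
    · rfl
    · ext1
      · rfl
      · simp only
        rw [mul_assoc, mul_comm (Circle.exp s)]
  · rintro t ⟨X, Y, Z⟩
    rfl
  · intro x y
    have hpi := Real.pi_pos
    rw [phi_eq N (2 * π) _ 0 (by simp), Hs_zero, inv_one, zero_add, div_self (by positivity),
      Hs_one]
    simp only [g, Equiv.Perm.mul_apply, Equiv.Perm.one_apply, Sx_apply, Sy_apply, im_exp,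
      ← Circle.exp_add, one_mul, Circle.exp_two_pi]

end Pool.Agent.R213.SF
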